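import Pool.Agent.W223.AK.Defs

/-!
# A finite quotient of `Kˣ` recording residues and orders at finitely many primes
-/

set_option autoImplicit false

namespace Pool.Agent.W613.AK

open NumberField IsDedekindDomain Finset Pool.Agent.H691R3 Pool.Agent.W223.AK

variable {K : Type} [Field K] [NumberField K]

lemma Nv_pos (v : Pr K) : (0 : ℝ) < Nv v := by linarith [two_le_Nv v]

lemma one_lt_Nv (v : Pr K) : (1 : ℝ) < Nv v := by linarith [two_le_Nv v]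

lemma pow_lt_one (v : Pr K) {n : ℕ} (hn : n ≠ 0) : (Nv v) ^ (-(n : ℤ)) < 1 := by
  have h := zpow_lt_zpow_right₀ (one_lt_Nv v) (show (-(n : ℤ)) < 0 by omega)
  simpa using h

lemma fv_close (v : Pr K) {n : ℕ} (hn : n ≠ 0) {x : K}
    (hx : fv v (x - 1) ≤ (Nv v) ^ (-(n : ℤ))) : fv v x = 1 := by
  have h1 := pow_lt_one v hn
  have h2 := fv_na v (x - 1) 1
  rw [sub_add_cancel, map_one] at h2
  have h3 : fv v x ≤ 1 := h2.trans (max_le (hx.trans h1.le) le_rfl)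
  have h4 := fv_na v (1 - x) x
  rw [sub_add_cancel, map_one, (fv v).map_sub] at h4
  rcases le_max_iff.mp h4 with h | h
  · linarith
  · linarith

/-- units congruent to `1` -/
def U (v : Pr K) (n : ℕ) (hn : n ≠ 0) : Subgroup Kˣ where
  carrier := {y | fv v ((y : K) - 1) ≤ (Nv v) ^ (-(n : ℤ))}
  one_mem' := by
    simp only [Set.mem_ofPred_eq, Units.val_one, sub_self, map_zero]
    exact (zpow_pos (Nv_pos v) _).le
  mul_mem' := by
    intro a b ha hb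
    simp only [Set.mem_ofPred_eq] at ha hb ⊢
    have ha1 := fv_close v hn ha
    have e : ((a * b : Kˣ) : K) - 1 = (a : K) * ((b : K) - 1) + ((a : K) - 1) := by
      push_cast; ring
    rw [e]
    refine (fv_na v _ _).trans (max_le ?_ ha)
    rw [map_mul, ha1, one_mul]
    exact hb
  inv_mem' := by
    intro a ha
    simp only [Set.mem_ofPred_eq] at ha ⊢
    have ha1 := fv_close v hn ha
    have e : ((a⁻¹ : Kˣ) : K) - 1 = (a : K)⁻¹ * (1 - (a : K)) := by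
      have : (a : K) ≠ 0 := a.ne_zero
      push_cast
      field_simp
    rw [e, map_mul, map_inv₀, ha1, inv_one, one_mul, (fv v).map_sub]
    exact ha

lemma mem_U (v : Pr K) {n : ℕ} (hn : n ≠ 0) (y : Kˣ) :
    y ∈ U v n hn ↔ fv v ((y : K) - 1) ≤ (Nv v) ^ (-(n : ℤ)) := Iff.rfl

lemma exists_unif (v : Pr K) : ∃ τ : Kˣ, fv v (τ : K) = (Nv v)⁻¹ := by
  obtain ⟨π, h1, h2⟩ := Ideal.exists_mem_pow_notMem_pow_succ v.asIdeal v.ne_bot v.isPrime.ne_top 1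
  have hπ : π ≠ 0 := by
    rintro rfl
    exact h2 (Submodule.zero_mem _)
  have hπK : (π : K) ≠ 0 := by
    intro h
    exact hπ (NumberField.RingOfIntegers.coe_eq_zero_iff.mp h)
  obtain ⟨m, hm⟩ := fv_zpow v hπK
  have h3 := (fv_le_pow_iff v π 1).mpr h1
  have h4 : ¬ fv v (π : K) ≤ (Nv v) ^ (-((1 + 1 : ℕ) : ℤ)) := fun h => h2 ((fv_le_pow_iff v π (1 + 1)).mp h)
  rw [hm, zpow_le_zpow_iff_right₀ (one_lt_Nv v)] at h3 h4
  have h5 : m = -1 := by push_cast at h3 h4; omega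
  refine ⟨Units.mk0 _ hπK, ?_⟩
  rw [Units.val_mk0, hm, h5, zpow_neg_one]

/-- the subgroup at one place -/
def Wv (v : Pr K) (n : ℕ) (hn : n ≠ 0) (N : ℕ) (τ : Kˣ) : Subgroup Kˣ :=
  U v n hn ⊔ Subgroup.zpowers (τ ^ N)

lemma mem_Wv (v : Pr K) {n : ℕ} (hn : n ≠ 0) (N : ℕ) (τ y : Kˣ) :
    y ∈ Wv v n hn N τ ↔ ∃ u ∈ U v n hn, ∃ j : ℤ, u * (τ ^ N) ^ j = y := by
  unfold Wv
  rw [Subgroup.mem_sup]
  constructor
  · rintro ⟨u, hu, z, ⟨j, hj⟩, h⟩
    refine ⟨u, hu, j, ?_⟩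
    rw [← h, ← hj]
  · rintro ⟨u, hu, j, h⟩
    exact ⟨u, hu, _, ⟨j, rfl⟩, h⟩

lemma finite_Wv (v : Pr K) {n : ℕ} (hn : n ≠ 0) {N : ℕ} (hN : 1 ≤ N) (τ : Kˣ)
    (hτ : fv v (τ : K) = (Nv v)⁻¹) : (Wv v n hn N τ).FiniteIndex := by
  classical
  haveI : NeZero N := ⟨by omega⟩
  have hord : ∀ y : Kˣ, ∃ m : ℤ, fv v (y : K) = (Nv v) ^ m := fun y => fv_zpow v y.ne_zero
  choose o ho using hord
  obtain ⟨M, c, hc⟩ := tb_finite v ((Nv v) ^ (-(n : ℤ))) (zpow_pos (Nv_pos v) _)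
  have key : ∀ y : Kˣ, fv v ((y * τ ^ (o y) : Kˣ) : K) = 1 := by
    intro y
    push_cast
    rw [map_mul, map_zpow₀, ho, hτ, inv_zpow, mul_inv_cancel₀]
    exact (zpow_pos (Nv_pos v) _).ne'
  let g : Kˣ → ZMod N × Fin M := fun y => ((o y : ZMod N), c ((y * τ ^ (o y) : Kˣ) : K))
  have hg : ∀ a b : Kˣ, g a = g b → a⁻¹ * b ∈ Wv v n hn N τ := by
    intro a b hab
    have h1 : (o a : ZMod N) = (o b : ZMod N) := congrArg Prod.fst hab
    have h2 : c ((a * τ ^ (o a) : Kˣ) : K) = c ((b * τ ^ (o b) : Kˣ) : K) := congrArg Prod.snd hab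
    rw [ZMod.intCast_eq_intCast_iff_dvd_sub] at h1
    obtain ⟨k, hk⟩ := h1
    have h3 := hc _ _ (key b).le (key a).le h2.symm
    rw [mem_Wv]
    refine ⟨(a * τ ^ (o a))⁻¹ * (b * τ ^ (o b)), ?_, -k, ?_⟩
    · rw [mem_U]
      have e : (((a * τ ^ (o a))⁻¹ * (b * τ ^ (o b)) : Kˣ) : K) - 1 =
          ((a * τ ^ (o a) : Kˣ) : K)⁻¹ * (((b * τ ^ (o b) : Kˣ) : K) - ((a * τ ^ (o a) : Kˣ) : K)) := by
        have h0 : ((a * τ ^ (o a) : Kˣ) : K) ≠ 0 := Units.ne_zero _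
        rw [mul_sub, inv_mul_cancel₀ h0]
        push_cast
        ring
      rw [e, map_mul, map_inv₀, key a, inv_one, one_mul]
      exact h3
    · have e2 : (τ ^ N) ^ (-k) = τ ^ (o a) * (τ ^ (o b))⁻¹ := by
        rw [← zpow_natCast τ N, ← zpow_mul, ← zpow_neg, ← zpow_add]
        congr 1
        linarith
      rw [e2, mul_inv]
      have : a⁻¹ * (τ ^ o a)⁻¹ * (b * τ ^ o b) * (τ ^ o a * (τ ^ o b)⁻¹) =
          a⁻¹ * b * ((τ ^ o a)⁻¹ * τ ^ o a) * (τ ^ o b * (τ ^ o b)⁻¹) := by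
        simp only [mul_comm, mul_left_comm, mul_assoc]
      rw [this, inv_mul_cancel, mul_inv_cancel, mul_one, mul_one]
  have hfin : Finite (Kˣ ⧸ Wv v n hn N τ) := by
    refine Finite.of_injective (fun q : Kˣ ⧸ Wv v n hn N τ => g (Quotient.out q)) ?_
    intro p q hpq
    have h := hg _ _ hpq
    have h4 : (QuotientGroup.mk (Quotient.out p) : Kˣ ⧸ Wv v n hn N τ) =
        QuotientGroup.mk (Quotient.out q) := QuotientGroup.eq.mpr h
    rwa [QuotientGroup.out_eq', QuotientGroup.out_eq'] at h4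
  exact Subgroup.finiteIndex_of_finite_quotient

lemma Wv_small (v : Pr K) {n : ℕ} (hn : n ≠ 0) {N : ℕ} (hN : 1 ≤ N) (τ : Kˣ)
    (hτ : fv v (τ : K) = (Nv v)⁻¹) {y : Kˣ} (hy : y ∈ Wv v n hn N τ)
    (hs : |Real.log (fv v (y : K))| < N * Real.log (Nv v)) : y ∈ U v n hn := by
  rw [mem_Wv] at hy
  obtain ⟨u, hu, j, rfl⟩ := hy
  have hu1 := fv_close v hn hu
  have h1 : fv v ((u * (τ ^ N) ^ j : Kˣ) : K) = (Nv v) ^ (-(N : ℤ) * j) := by
    push_cast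
    rw [map_mul, map_zpow₀, map_pow, hu1, hτ, one_mul, zpow_mul, zpow_neg, zpow_natCast, inv_pow]
  rw [h1, Real.log_zpow, abs_mul, abs_of_pos (log_Nv_pos v)] at hs
  have h2 := lt_of_mul_lt_mul_right hs (log_Nv_pos v).le
  have h3 : |(-(N : ℤ) * j)| < N := by
    have : ((|(-(N : ℤ) * j)| : ℤ) : ℝ) < ((N : ℤ) : ℝ) := by
      push_cast at h2 ⊢
      exact h2
    exact_mod_cast this
  have hj : j = 0 := by
    by_contra hj
    have h4 : 1 ≤ |j| := Int.one_le_abs hj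
    rw [abs_mul, abs_neg, Nat.abs_cast] at h3
    nlinarith
  subst hj
  simpa using hu

theorem grp : StmtGRP K := by
  classical
  intro f N hN
  choose τ hτ using fun v : Pr K => exists_unif v
  let W : Subgroup Kˣ := ⨅ v : f.support, Wv v.1 (f v.1) (Finsupp.mem_support_iff.mp v.2) N (τ v.1)
  have hW : ∀ y : Kˣ, y ∈ W ↔ ∀ v : f.support,
      y ∈ Wv v.1 (f v.1) (Finsupp.mem_support_iff.mp v.2) N (τ v.1) := fun y => Subgroup.mem_iInf
  haveI : W.FiniteIndex :=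
    Subgroup.finiteIndex_iInf fun v => finite_Wv v.1 _ hN _ (hτ v.1)
  refine ⟨Kˣ ⧸ W, inferInstance, inferInstance, QuotientGroup.mk' W, ?_, ?_⟩
  · intro y hy
    rw [← MonoidHom.mem_ker, QuotientGroup.ker_mk', hW]
    rintro ⟨v, hv⟩
    have hv' := Finsupp.mem_support_iff.mp hv
    rw [mem_Wv]
    exact ⟨y, hy v hv', 0, by simp⟩
  · intro y hy v hv hs
    rw [← MonoidHom.mem_ker, QuotientGroup.ker_mk', hW] at hy
    have h := Wv_small v hv hN (τ v) (hτ v) (hy ⟨v, Finsupp.mem_support_iff.mpr hv⟩) hs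
    exact ⟨fv_close v hv h, h⟩

end Pool.Agent.W613.AK
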